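import Pool.Agent.H765.BZ.Stm2

/-! Project BZ (helper765): the lemma CONST. -/

set_option autoImplicit false

namespace Pool.Agent.H75.BZ.CONST

open PowerSeries Finset Nat Real Filter Topology
open Pool.Agent.H765.BZ Pool.Agent.H765.CS

/-- the product of two convergent series is convergent -/
theorem cv_mul {U V : ℝ⟦X⟧} (hU : Cv U) (hV : Cv V) : Cv (U * V) := by
  obtain ⟨C, R, hR, hC⟩ := hU
  obtain ⟨D, T, hT, hD⟩ := hV
  have hC0 : 0 ≤ C := by
    have h2 := (abs_nonneg _).trans (hC 0)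
    simpa using h2
  have hD0 : 0 ≤ D := by
    have h2 := (abs_nonneg _).trans (hD 0)
    simpa using h2
  refine ⟨C * D, 2 * (R + T), by positivity, fun k => ?_⟩
  rw [coeff_mul]
  refine (abs_sum_le_sum_abs _ _).trans ?_
  have hterm : ∀ p ∈ antidiagonal k, |coeff p.1 U * coeff p.2 V| ≤ C * D * (R + T) ^ k := by
    rintro ⟨i, j⟩ hp
    rw [HasAntidiagonal.mem_antidiagonal] at hp
    have hk : k = i + j := hp.symm
    rw [hk, abs_mul, pow_add]
    calc |coeff i U| * |coeff j V| ≤ (C * R ^ i) * (D * T ^ j) :=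
          mul_le_mul (hC i) (hD j) (abs_nonneg _) (by positivity)
      _ ≤ (C * (R + T) ^ i) * (D * (R + T) ^ j) := by
          have h1 : R ^ i ≤ (R + T) ^ i := pow_le_pow_left₀ hR (by linarith) i
          have h2 : T ^ j ≤ (R + T) ^ j := pow_le_pow_left₀ hT (by linarith) j
          exact mul_le_mul (mul_le_mul_of_nonneg_left h1 hC0) (mul_le_mul_of_nonneg_left h2 hD0)
            (by positivity) (by positivity)
      _ = C * D * ((R + T) ^ i * (R + T) ^ j) := by ring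
  refine (sum_le_card_nsmul _ _ _ hterm).trans ?_
  rw [Finset.Nat.card_antidiagonal, nsmul_eq_mul, mul_pow]
  have h2 : ((k + 1 : ℕ) : ℝ) ≤ 2 ^ k := by
    have h3 : k + 1 ≤ 2 ^ k := Nat.lt_two_pow_self
    exact_mod_cast h3
  calc ((k + 1 : ℕ) : ℝ) * (C * D * (R + T) ^ k) ≤ 2 ^ k * (C * D * (R + T) ^ k) :=
        mul_le_mul_of_nonneg_right h2 (by positivity)
    _ = C * D * (2 ^ k * (R + T) ^ k) := by ring

theorem coeff_expR (c : ℝ) (k : ℕ) : coeff k (expR c) = c ^ k * (1 / ((k ! : ℕ) : ℝ)) := by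
  rw [expR, coeff_rescale, coeff_exp]
  simp

theorem cv_expR (c : ℝ) : Cv (expR c) := by
  refine ⟨1, |c|, abs_nonneg c, fun k => ?_⟩
  rw [coeff_expR, abs_mul, abs_pow, one_mul]
  have h1 : |1 / ((k ! : ℕ) : ℝ)| ≤ 1 := by
    have h2 : (1 : ℝ) ≤ ((k ! : ℕ) : ℝ) := by exact_mod_cast Nat.factorial_pos k
    rw [abs_of_nonneg (by positivity), div_le_one (by linarith)]
    exact h2
  calc |c| ^ k * |1 / ((k ! : ℕ) : ℝ)| ≤ |c| ^ k * 1 :=
        mul_le_mul_of_nonneg_left h1 (by positivity)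
    _ = |c| ^ k := mul_one _

theorem expR_neg_mul (c : ℝ) : expR (-c) * expR c = 1 := by
  rw [expR, expR, PowerSeries.exp_mul_exp_eq_exp_add, neg_add_cancel]
  ext n
  rw [coeff_rescale, coeff_exp, coeff_one]
  by_cases h : n = 0
  · simp [h]
  · simp [h]

/-- a series with a convergent transform is entire -/
theorem ent_of_cv {g : ℝ⟦X⟧} {x : ℝ} (hx : x ≠ 0) (h : Cv (Tg (rescale x g))) : Ent g := by
  obtain ⟨C, R, hR, hC⟩ := h
  have hx0 : 0 < |x| := abs_pos.2 hx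
  intro ρ hρ
  have hs := (Real.summable_pow_div_factorial (R * ρ / |x|)).mul_left C
  refine Summable.of_nonneg_of_le (fun n => by positivity) (fun n => ?_) hs
  have h1 := hC n
  rw [Tg, coeff_mk, coeff_rescale, abs_mul, abs_mul, abs_pow,
    abs_of_nonneg (Nat.cast_nonneg _ : (0 : ℝ) ≤ (((2 * n + 1)‼ : ℕ) : ℝ))] at h1
  have hf : ((n ! : ℕ) : ℝ) ≤ (((2 * n + 1)‼ : ℕ) : ℝ) := by exact_mod_cast factorial_le_odd n
  have hf0 : (0 : ℝ) < ((n ! : ℕ) : ℝ) := by exact_mod_cast Nat.factorial_pos n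
  have h2 : ((n ! : ℕ) : ℝ) * (|x| ^ n * |coeff n g|) ≤ C * R ^ n :=
    (mul_le_mul_of_nonneg_right hf (by positivity)).trans h1
  have h3 : |coeff n g| * ρ ^ n * (((n ! : ℕ) : ℝ) * |x| ^ n) ≤ C * R ^ n * ρ ^ n := by
    have := mul_le_mul_of_nonneg_right h2 (pow_nonneg hρ n)
    linarith
  have h4 : C * ((R * ρ / |x|) ^ n / ((n ! : ℕ) : ℝ)) =
      (C * R ^ n * ρ ^ n) / (((n ! : ℕ) : ℝ) * |x| ^ n) := by
    rw [div_pow, mul_pow]
    field_simp
  rw [h4, le_div_iff₀ (by positivity)]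
  exact h3

/-- the Gaussian integral is not convergent -/
theorem not_cv_sg {a : Finset ℕ} (ha : IsFib a) {P : ℝ} (hP : P ≠ 0) : ¬ Cv (sg a P) := by
  intro h
  have e : sg a P = Tg (rescale P (GR a)) := by
    ext k
    rw [sg, Tg, coeff_mk, coeff_mk, coeff_rescale]
    ring
  rw [e] at h
  have hge := ent_of_cv hP h
  have h1 : GR a * shR ^ (a.card - 2) = Ea a := by
    rw [GR, mul_assoc, ← mul_pow, PowerSeries.inv_mul_cancel _ shR_const, one_pow, mul_one]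
  have hE : ev (-(((1 : ℕ) : ℝ) * π) ^ 2) (Ea a) ≠ 0 := by
    intro h
    obtain ⟨l, hl, hd⟩ := (ev_Ea_eq_zero ha.two le_rfl).1 h
    have h1 := ha.two l hl
    have h2 := Nat.le_of_dvd one_pos hd
    omega
  apply hE
  have hc := ha.card
  rw [← h1, hge.ev_mul (Ent.shR.pow _), ev_pow le_rfl (Ent.shR.W _), ev_shR_zero 1 le_rfl,
    zero_pow (by omega), MulZeroClass.mul_zero]

theorem coeff_zero_sg (a : Finset ℕ) (P : ℝ) : coeff 0 (sg a P) = 1 := by
  have h := ser_const (a, true)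
  rw [ser, ← coeff_zero_eq_constantCoeff_apply, sg, coeff_mk, pow_zero] at h
  rw [sg, coeff_mk, pow_zero]
  exact h

/-- the polynomial whose values are the coefficients of `expR ρ * u` -/
noncomputable def Wp (q : Polynomial ℝ) (u : ℝ⟦X⟧) (k : ℕ) : Polynomial ℝ :=
  ∑ p ∈ antidiagonal k, q ^ p.1 * Polynomial.C (1 / ((p.1 ! : ℕ) : ℝ)) * Polynomial.C (coeff p.2 u)

theorem eval_Wp (q : Polynomial ℝ) (u : ℝ⟦X⟧) (k : ℕ) (x : ℝ) :
    (Wp q u k).eval x = coeff k (expR (q.eval x) * u) := by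
  rw [Wp, Polynomial.eval_finsetSum, coeff_mul]
  refine sum_congr rfl fun p _ => ?_
  rw [coeff_expR, Polynomial.eval_mul, Polynomial.eval_mul, Polynomial.eval_pow,
    Polynomial.eval_C, Polynomial.eval_C]

theorem t_CONST : S_CONST := by
  intro V S a P r K hS h hcv
  -- finitely many pairs
  have him : ((fun n => (a n, P n)) '' S).Finite := by
    refine ((range (K.toNat + 1)).powerset ×ˢ Finset.Icc (-K) K).finite_toSet.subset ?_
    rintro _ ⟨n, hn, rfl⟩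
    obtain ⟨hf, hp, hK, -⟩ := h n hn
    have hpr : (∏ l ∈ a n, (l : ℤ)) = ((∏ l ∈ a n, l : ℕ) : ℤ) := by push_cast; rfl
    rw [mem_coe, mem_product, mem_powerset]
    refine ⟨fun l hl => ?_, ?_⟩
    · have h1 : l ∣ ∏ l ∈ a n, l := dvd_prod_of_mem _ hl
      have h2 := Nat.le_of_dvd (prod_pos_fib hf) h1
      rw [hp, hpr] at hK
      rw [mem_range]
      omega
    · rw [Finset.mem_Icc]
      exact abs_le.1 hK
  obtain ⟨y, hy⟩ : ∃ y, (S ∩ (fun n => (a n, P n)) ⁻¹' {y}).Infinite := by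
    by_contra hne
    push Not at hne
    exact hS (Set.Finite.of_finite_fibers _ him fun x _ => by simpa using hne x)
  obtain ⟨a0, P0⟩ := y
  obtain ⟨u, hu⟩ : ∃ u, u = sg a0 (P0 : ℝ) := ⟨_, rfl⟩
  have hu0 : coeff 0 u = 1 := by rw [hu, coeff_zero_sg]
  obtain ⟨n0, hn0, hn0'⟩ := hy.nonempty
  have hn0'' : (a n0, P n0) = (a0, P0) := hn0'
  have hfib : IsFib a0 ∧ (P0 : ℝ) ≠ 0 := by
    obtain ⟨hf, hp, -, -⟩ := h n0 hn0
    obtain ⟨e1, e2⟩ := Prod.mk.inj hn0''
    have hpr : (∏ l ∈ a n0, (l : ℤ)) = ((∏ l ∈ a n0, l : ℕ) : ℤ) := by push_cast; rfl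
    have hpos := prod_pos_fib hf
    refine ⟨e1 ▸ hf, ?_⟩
    intro h0
    have h1 : P0 = 0 := by exact_mod_cast h0
    rw [e2, h1, hpr, abs_zero] at hp
    omega
  have hkey : ∀ k, V k = Wp (V 1 - Polynomial.C (coeff 1 u)) u k := by
    intro k
    apply Polynomial.eq_of_infinite_eval_eq
    refine (hy.image (f := fun n : ℤ => (n : ℝ)) (Int.cast_injective.injOn)).mono ?_
    rintro _ ⟨n, ⟨hn, hn'⟩, rfl⟩
    have hn'' : (a n, P n) = (a0, P0) := hn'
    obtain ⟨e1, e2⟩ := Prod.mk.inj hn''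
    obtain ⟨-, -, -, hV⟩ := h n hn
    rw [e1, e2, ← hu] at hV
    have h1 : (V 1).eval (n : ℝ) - coeff 1 u = r n := by
      rw [hV 1, coeff_mul, Finset.Nat.antidiagonal_succ]
      simp [coeff_expR, hu0]
    show (V k).eval (n : ℝ) = (Wp (V 1 - Polynomial.C (coeff 1 u)) u k).eval (n : ℝ)
    rw [eval_Wp, Polynomial.eval_sub, Polynomial.eval_C, h1]
    exact hV k
  have hmk : (PowerSeries.mk fun k => (V k).eval 0) =
      expR ((V 1 - Polynomial.C (coeff 1 u)).eval 0) * u := by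
    ext k
    rw [coeff_mk, ← eval_Wp, ← hkey k]
  rw [hmk] at hcv
  have h2 := cv_mul (cv_expR (-((V 1 - Polynomial.C (coeff 1 u)).eval 0))) hcv
  rw [← mul_assoc, expR_neg_mul, one_mul, hu] at h2
  exact not_cv_sg hfib.1 hfib.2 h2

end Pool.Agent.H75.BZ.CONST
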